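import Pool.Agent.Helper52.SX.Goals
import Pool.Agent.Helper93.CS.CNT

/-!
# Project SX, packet CTT: counting with a common unit, for tuples
-/

set_option autoImplicit false

namespace Pool.Agent.Helper9.SX

open Pool.Agent.Helper81.CC Pool.Agent.Helper78.DT Pool.Agent.Helper65.CS Pool.Agent.Helper52.SX

/-- A decision list of terms as a decision list of CNFs whose clauses have one literal. -/
def tr (F : DList) : Pool.Agent.Helper78.JT.CList :=
  F.map fun e => (e.1.map (fun p => [p]), e.2)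

/-- The circuit. -/
def crc (y : ℕ × Tup × ℕ) : Pool.Agent.Helper78.JT.Circuit :=
  (y.1 + y.2.2, y.2.1.1.map tr, y.2.1.2)

theorem pt_tr : PolyTime tr := by
  have h1 : PolyTime (fun z : DList × (List (ℕ × Bool) × Bool) => z.2.1) := by fun_prop
  have h2 : PolyTime (fun z : (DList × (List (ℕ × Bool) × Bool)) × (ℕ × Bool) => [z.2]) := by
    fun_prop
  have h3 : PolyTime (fun z : DList × (List (ℕ × Bool) × Bool) => z.2.1.map fun p => [p]) :=
    PolyTime.list_map (f := fun _ (p : ℕ × Bool) => [p]) h1 h2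
  have h4 : PolyTime (fun z : DList × (List (ℕ × Bool) × Bool) => z.2.2) := by fun_prop
  have h5 : PolyTime (fun z : DList × (List (ℕ × Bool) × Bool) =>
      ((z.2.1.map fun p => [p], z.2.2) : List Pool.Agent.Helper78.JT.Clause × Bool)) := by fun_prop
  have h6 : PolyTime (fun F : DList => F) := by fun_prop
  unfold tr
  exact PolyTime.list_map (f := fun _ (e : List (ℕ × Bool) × Bool) =>
    ((e.1.map fun p => [p], e.2) : List Pool.Agent.Helper78.JT.Clause × Bool)) h6 h5

theorem pt_crc : PolyTime crc := by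
  have h1 : PolyTime (fun y : ℕ × Tup × ℕ => y.1 + y.2.2) := by fun_prop
  have h2 : PolyTime (fun y : ℕ × Tup × ℕ => y.2.1.2) := by fun_prop
  have h3 : PolyTime (fun y : ℕ × Tup × ℕ => y.2.1.1) := by fun_prop
  have h4 : PolyTime (fun z : (ℕ × Tup × ℕ) × DList => tr z.2) :=
    PolyTime.comp (g := tr) (f := fun z : (ℕ × Tup × ℕ) × DList => z.2) pt_tr (by fun_prop)
  have h5 : PolyTime (fun y : ℕ × Tup × ℕ => y.2.1.1.map tr) :=
    PolyTime.list_map (f := fun _ (F : DList) => tr F) h3 h4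
  unfold crc
  fun_prop

theorem pt_lsize : PolyTime (fun f : Pool.Agent.Helper78.JT.CList =>
    Pool.Agent.Helper78.JT.lsize f) := by
  unfold Pool.Agent.Helper78.JT.lsize
  have h1 : PolyTime (fun z : (Pool.Agent.Helper78.JT.CList ×
      (List Pool.Agent.Helper78.JT.Clause × Bool)) × Pool.Agent.Helper78.JT.Clause =>
      1 + z.2.length) := by
    fun_prop
  have h2 : PolyTime (fun z : Pool.Agent.Helper78.JT.CList ×
      (List Pool.Agent.Helper78.JT.Clause × Bool) => z.2.1) := by fun_prop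
  have h3 : PolyTime (fun z : Pool.Agent.Helper78.JT.CList ×
      (List Pool.Agent.Helper78.JT.Clause × Bool) =>
      1 + (z.2.1.map fun C => 1 + C.length).sum) := by
    have h4 : PolyTime (fun z : Pool.Agent.Helper78.JT.CList ×
        (List Pool.Agent.Helper78.JT.Clause × Bool) =>
        (z.2.1.map fun C => 1 + C.length).sum) :=
      PolyTime.sum (PolyTime.list_map
        (f := fun _ (C : Pool.Agent.Helper78.JT.Clause) => 1 + C.length) h2 h1)
    fun_prop
  have h5 : PolyTime (fun f : Pool.Agent.Helper78.JT.CList => f) := by fun_prop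
  exact PolyTime.sum (PolyTime.list_map
    (f := fun _ (e : List Pool.Agent.Helper78.JT.Clause × Bool) =>
      1 + (e.1.map fun C => 1 + C.length).sum) h5 h3)

theorem pt_size : PolyTime (fun z : Pool.Agent.Helper78.JT.Circuit =>
    Pool.Agent.Helper78.JT.size z) := by
  unfold Pool.Agent.Helper78.JT.size
  have h0 : PolyTime (fun z : Pool.Agent.Helper78.JT.Circuit => z.2.1) := by fun_prop
  have h1 : PolyTime (fun w : Pool.Agent.Helper78.JT.Circuit × Pool.Agent.Helper78.JT.CList =>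
      Pool.Agent.Helper78.JT.lsize w.2) := PolyTime.comp pt_lsize (by fun_prop)
  have h2 : PolyTime (fun w : Pool.Agent.Helper78.JT.Circuit × Pool.Agent.Helper78.JT.CList =>
      1 + Pool.Agent.Helper78.JT.lsize w.2) := by fun_prop
  have h3 : PolyTime (fun z : Pool.Agent.Helper78.JT.Circuit =>
      (z.2.1.map fun f => 1 + Pool.Agent.Helper78.JT.lsize f).sum) :=
    PolyTime.sum (PolyTime.list_map (f := fun _ (f : Pool.Agent.Helper78.JT.CList) =>
      1 + Pool.Agent.Helper78.JT.lsize f) h0 h2)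
  have h4 : PolyTime (fun z : Pool.Agent.Helper78.JT.Circuit => z.1) := by fun_prop
  have h5 : PolyTime (fun z : Pool.Agent.Helper78.JT.Circuit => z.2.2.length) := by fun_prop
  fun_prop

theorem holds_tr {n : ℕ} (r : Fin n → Bool) (c : List (ℕ × Bool)) :
    Pool.Agent.Helper78.JT.Holds r (c.map fun p => [p]) ↔
      ∀ p ∈ c, (if h : p.1 < n then r ⟨p.1, h⟩ else false) = p.2 := by
  unfold Pool.Agent.Helper78.JT.Holds Pool.Agent.Helper78.JT.coin
  constructor
  · intro h p hp
    obtain ⟨q, hq, h'⟩ := h [p] (List.mem_map.2 ⟨p, hp, rfl⟩)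
    rw [List.mem_singleton] at hq
    subst hq
    exact h'
  · intro h C hC
    obtain ⟨p, hp, rfl⟩ := List.mem_map.1 hC
    exact ⟨p, List.mem_singleton.2 rfl, h p hp⟩

theorem val_tr {n : ℕ} (r : Fin n → Bool) (F : DList) :
    Pool.Agent.Helper78.JT.val r (tr F) = DList.val r F := by
  induction F with
  | nil => rfl
  | cons e F ih =>
    have h1 : Pool.Agent.Helper78.JT.val r (tr (e :: F)) =
        if Pool.Agent.Helper78.JT.Holds r (e.1.map fun p => [p]) then e.2
          else Pool.Agent.Helper78.JT.val r (tr F) := rfl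
    have h2 : DList.val r (e :: F) =
        if ∀ p ∈ e.1, (if h : p.1 < n then r ⟨p.1, h⟩ else false) = p.2 then e.2
          else DList.val r F := rfl
    rw [h1, h2, ih]
    simp only [holds_tr]

theorem idx_tr {n : ℕ} (r : Fin n → Bool) (l : List DList) :
    Pool.Agent.Helper78.JT.idx r (l.map tr) = ixv r l := by
  induction l with
  | nil => rfl
  | cons F l ih =>
    have h1 : Pool.Agent.Helper78.JT.idx r ((F :: l).map tr) =
        (if Pool.Agent.Helper78.JT.val r (tr F) = true then 1 else 0) +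
          2 * Pool.Agent.Helper78.JT.idx r (l.map tr) := rfl
    have h2 : ixv r (F :: l) = (if DList.val r F = true then 1 else 0) + 2 * ixv r l := rfl
    rw [h1, h2, ih, val_tr]

theorem ixv_spl (n N W l : ℕ) (z : Tup) (hz : NFT n W l z) (r : Fin (n + N) → Bool) :
    ixv r z.1 = ixv (Pool.Agent.Helper93.CS.spl n N r).1 z.1 := by
  have key : ∀ L : List DList, (∀ F ∈ L, NF n W F) →
      ixv r L = ixv (Pool.Agent.Helper93.CS.spl n N r).1 L := by
    intro L
    induction L with
    | nil => intro _; rfl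
    | cons F L ih =>
      intro hL
      have h1 : ixv r (F :: L) = (if DList.val r F = true then 1 else 0) + 2 * ixv r L := rfl
      have h2 : ixv (Pool.Agent.Helper93.CS.spl n N r).1 (F :: L) =
          (if DList.val (Pool.Agent.Helper93.CS.spl n N r).1 F = true then 1 else 0) +
            2 * ixv (Pool.Agent.Helper93.CS.spl n N r).1 L := rfl
      rw [h1, h2, ih fun F' h => hL F' (List.mem_cons_of_mem _ h),
        Pool.Agent.Helper93.CS.val_spl n N W F (hL F List.mem_cons_self) r]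
  exact key z.1 fun F hF => (hz F hF).1

theorem fract_crc (n N W l : ℕ) (z : Tup) (hz : NFT n W l z) :
    (Pool.Agent.Helper78.JT.cnt (crc (n, z, N)) : ℝ) / 2 ^ (crc (n, z, N)).1 = fract n z := by
  have hout : ∀ r : Fin (n + N) → Bool, Pool.Agent.Helper78.JT.out (crc (n, z, N)) r =
      tv (Pool.Agent.Helper93.CS.spl n N r).1 z := by
    intro r
    have h1 : Pool.Agent.Helper78.JT.out (crc (n, z, N)) r =
        z.2.getD (Pool.Agent.Helper78.JT.idx r (z.1.map tr)) false := rfl
    rw [h1, idx_tr, ixv_spl n N W l z hz r]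
    rfl
  have h1 : Pool.Agent.Helper78.JT.cnt (crc (n, z, N)) =
      Nat.card {r : Fin n → Bool // tv r z = true} * 2 ^ N := by
    have e1 : {r : Fin (n + N) → Bool //
        Pool.Agent.Helper78.JT.out (crc (n, z, N)) r = true} ≃
        {q : (Fin n → Bool) × (Fin N → Bool) // tv q.1 z = true} :=
      Equiv.subtypeEquiv (Pool.Agent.Helper93.CS.spl n N) fun r => by rw [hout r]
    have e2 : {q : (Fin n → Bool) × (Fin N → Bool) // tv q.1 z = true} ≃
        {r : Fin n → Bool // tv r z = true} × (Fin N → Bool) :=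
      { toFun := fun q => (⟨q.1.1, q.2⟩, q.1.2)
        invFun := fun q => ⟨(q.1.1, q.2), q.1.2⟩
        left_inv := fun _ => rfl
        right_inv := fun _ => rfl }
    have h2 : Pool.Agent.Helper78.JT.cnt (crc (n, z, N)) = Nat.card {r : Fin (n + N) → Bool //
        Pool.Agent.Helper78.JT.out (crc (n, z, N)) r = true} := rfl
    rw [h2, Nat.card_congr (e1.trans e2), Nat.card_prod]
    simp
  have h3 : (crc (n, z, N)).1 = n + N := rfl
  rw [h1, h3, pow_add]
  unfold fract
  push_cast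
  rw [mul_div_mul_right]
  positivity

theorem narrow_crc (y : ℕ × Tup × ℕ) : Pool.Agent.Helper78.JT.Narrow 1 (crc y) := by
  intro f hf e he
  have hf' : f ∈ y.2.1.1.map tr := hf
  obtain ⟨F, hF, rfl⟩ := List.mem_map.1 hf'
  unfold tr at he
  obtain ⟨e', he', rfl⟩ := List.mem_map.1 he
  have h1 : (e'.1.map fun p => [p]).filter (fun C => decide (1 < C.length)) = [] := by
    rw [List.filter_eq_nil_iff]
    intro C hC
    obtain ⟨p, hp, rfl⟩ := List.mem_map.1 hC
    simp
  simp only [h1, List.length_nil]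
  exact Nat.zero_le _

/-- the counting function with a common unit -/
def gf (h : Pool.Agent.Helper78.JT.Circuit → ℕ) (k : ℕ) (y : ℕ × Tup × ℕ) : ℕ :=
  (2 * (lg y.2.2 ^ k * h (crc y)) + lg (Pool.Agent.Helper78.JT.size (crc y)) ^ (k + 1)) /
    (2 * lg (Pool.Agent.Helper78.JT.size (crc y)) ^ (k + 1))

theorem pt_gf {h : Pool.Agent.Helper78.JT.Circuit → ℕ} (hh : PolyTime h) (k : ℕ) :
    PolyTime (gf h k) := by
  have h2 : PolyTime fun y : ℕ × Tup × ℕ => h (crc y) := PolyTime.comp hh pt_crc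
  have h3 : PolyTime fun y : ℕ × Tup × ℕ => lg (Pool.Agent.Helper78.JT.size (crc y)) :=
    Pool.Agent.Helper93.CS.pt_lg (PolyTime.comp pt_size pt_crc)
  have h4 : PolyTime fun y : ℕ × Tup × ℕ => lg y.2.2 :=
    Pool.Agent.Helper93.CS.pt_lg (by fun_prop)
  unfold gf
  exact PolyTime.div (PolyTime.add (PolyTime.mul (PolyTime.const 2)
    (PolyTime.mul (PolyTime.pow h4 k) h2)) (PolyTime.pow h3 (k + 1)))
    (PolyTime.mul (PolyTime.const 2) (PolyTime.pow h3 (k + 1)))

/-- The numerical part. -/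
theorem num (L D a k : ℕ) (fr : ℝ) (hL : 2 ≤ L) (hDL : L ≤ D)
    (h1 : |(a : ℝ) / (D : ℝ) ^ (k + 1) - fr| ≤ 1 / (D : ℝ) ^ (k + 1)) :
    |(((2 * (L ^ k * a) + D ^ (k + 1)) / (2 * D ^ (k + 1)) : ℕ) : ℝ) / (L : ℝ) ^ k - fr| ≤
      1 / (L : ℝ) ^ k := by
  have hL0 : (2 : ℝ) ≤ L := by exact_mod_cast hL
  have hDL' : (L : ℝ) ≤ D := by exact_mod_cast hDL
  have hDp : 0 < D ^ (k + 1) := Nat.pow_pos (by omega)
  have hLk : (0 : ℝ) < (L : ℝ) ^ k := by positivity
  have h3 := Pool.Agent.Helper93.CS.round_close (L ^ k * a) (D ^ (k + 1)) hDp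
  push_cast at h3
  have hDpos : (0 : ℝ) < (D : ℝ) ^ (k + 1) := by exact_mod_cast hDp
  have h4 : 2 * (L : ℝ) ^ k ≤ (D : ℝ) ^ (k + 1) := by
    calc 2 * (L : ℝ) ^ k ≤ D * (D : ℝ) ^ k :=
          mul_le_mul (hL0.trans hDL') (pow_le_pow_left₀ (by linarith) hDL' k) (by positivity)
            (by linarith)
      _ = (D : ℝ) ^ (k + 1) := by ring
  have h5 : 1 / (D : ℝ) ^ (k + 1) ≤ 1 / (2 * (L : ℝ) ^ k) :=
    one_div_le_one_div_of_le (by positivity) h4
  generalize hq : (((2 * (L ^ k * a) + D ^ (k + 1)) / (2 * D ^ (k + 1)) : ℕ) : ℝ) = q at *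
  have h6 : q / (L : ℝ) ^ k - fr =
      (q - (L : ℝ) ^ k * a / (D : ℝ) ^ (k + 1)) / (L : ℝ) ^ k +
        ((a : ℝ) / (D : ℝ) ^ (k + 1) - fr) := by
    field_simp
    ring
  rw [h6]
  have h7 : |(q - (L : ℝ) ^ k * a / (D : ℝ) ^ (k + 1)) / (L : ℝ) ^ k| ≤ 1 / (2 * (L : ℝ) ^ k) := by
    rw [abs_div, abs_of_pos hLk, div_le_iff₀ hLk]
    have h8 : 1 / (2 * (L : ℝ) ^ k) * (L : ℝ) ^ k = 1 / 2 := by
      field_simp
    rw [h8]
    exact h3
  calc _ ≤ _ := abs_add_le _ _
    _ ≤ 1 / (2 * (L : ℝ) ^ k) + 1 / (2 * (L : ℝ) ^ k) := add_le_add h7 (h1.trans h5)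
    _ = 1 / (L : ℝ) ^ k := by
      field_simp
      norm_num

theorem ctt : CttStmt := by
  intro hc e k
  obtain ⟨h, hp, hb⟩ := hc (k + 1) 1 e
  refine ⟨gf h k, pt_gf (Pool.Agent.Helper78.LM.PT_of_comp hp) k, ?_⟩
  intro n W l z N hz hlen
  have hN : N ≤ Pool.Agent.Helper78.JT.size (crc (n, z, N)) := by
    have h0 : (crc (n, z, N)).1 = n + N := rfl
    unfold Pool.Agent.Helper78.JT.size
    omega
  have hlg : lg N ≤ lg (Pool.Agent.Helper78.JT.size (crc (n, z, N))) := by
    unfold lg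
    have := Nat.log_mono_right (b := 2) hN
    omega
  have hlen' : (crc (n, z, N)).2.1.length ^ (e + 1) ≤
      (Nat.log 2 (Pool.Agent.Helper78.JT.size (crc (n, z, N))) + 2) ^ e := by
    have h0 : (crc (n, z, N)).2.1.length = z.1.length := List.length_map ..
    rw [h0]
    exact hlen.trans (Nat.pow_le_pow_left hlg e)
  have h1 := hb (crc (n, z, N)) (narrow_crc _) hlen'
  rw [fract_crc n N W l z hz] at h1
  exact num (lg N) (lg (Pool.Agent.Helper78.JT.size (crc (n, z, N)))) (h (crc (n, z, N))) k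
    (fract n z) (by unfold lg; omega) hlg h1

end Pool.Agent.Helper9.SX
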